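import Pool.Agent.Helper59.PG.Quant

/-!
# Project PG, general laws: masses of the truncated laws
-/

set_option autoImplicit false

namespace Pool.Agent.Helper90.PG

open MeasureTheory ProbabilityTheory Set

/-- `f b` are truncations: close to the identity from both sides on half lines for large `b` -/
theorem mass_of {ν : Measure ℝ} [IsProbabilityMeasure ν] (hat : ∀ x, ν {x} = 0)
    (ha : ν (Iio 0) = 0) (f : ℕ → ℝ → ℝ) (hfm : ∀ b, Measurable (f b))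
    (hf1 : ∀ s t : ℝ, 0 ≤ s → s < t → ∃ b₁, ∀ b, b₁ ≤ b → ∀ x, x ≤ s → f b x ≤ t)
    (hf2 : ∀ s t : ℝ, 0 < s → s < t → ∃ b₁, ∀ b, b₁ ≤ b → ∀ x, t ≤ x → s ≤ f b x)
    {p : ℝ} (hp : 0 < p) :
    ∃ α β mm : ℝ, 0 < α ∧ α < β ∧ 0 < mm ∧ ∃ b₁ : ℕ, ∀ b, b₁ ≤ b →
      mm ≤ (ν.map (f b)).real (Iic α) ∧ mm ≤ (ν.map (f b)).real (Ici β) ∧
      (ν.map (f b)).real (Iio β) ≤ p := by
  have hp' : 0 < min p (1 / 2) := lt_min hp (by norm_num)
  have hp1 : min p (1 / 2) < 1 := lt_of_le_of_lt (min_le_right _ _) (by norm_num)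
  obtain ⟨α₀, β₀, h1, h2, h3, h4⟩ := Pool.Agent.Helper59.PG.exists_quant hat ha hp' hp1
  have hα : α₀ < (2 * α₀ + β₀) / 3 := by linarith
  have hβ : (α₀ + 2 * β₀) / 3 < β₀ := by linarith
  obtain ⟨b₁, hb₁⟩ := hf1 α₀ ((2 * α₀ + β₀) / 3) h1 hα
  obtain ⟨b₂, hb₂⟩ := hf2 ((α₀ + 2 * β₀) / 3) β₀ (by linarith) hβ
  refine ⟨(2 * α₀ + β₀) / 3, (α₀ + 2 * β₀) / 3, min (ν.real (Iic α₀)) (1 / 2), by linarith,
    by linarith, lt_min h3 (by norm_num), max b₁ b₂, fun b hb => ?_⟩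
  have hmap : ∀ s : Set ℝ, MeasurableSet s → (ν.map (f b)).real s = ν.real (f b ⁻¹' s) := by
    intro s hs
    rw [Measure.real, Measure.map_apply (hfm b) hs, Measure.real]
  have hle1 : ν.real (f b ⁻¹' Iio ((α₀ + 2 * β₀) / 3)) ≤ ν.real (Iio β₀) := by
    refine measureReal_mono ?_ (measure_ne_top _ _)
    intro x hx
    by_contra hc
    exact absurd (hb₂ b ((le_max_right _ _).trans hb) x (not_lt.1 hc)) (not_le.2 hx)
  refine ⟨?_, ?_, ?_⟩
  · rw [hmap _ measurableSet_Iic]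
    refine (min_le_left _ _).trans (measureReal_mono ?_)
    intro x hx
    exact hb₁ b ((le_max_left _ _).trans hb) x hx
  · rw [hmap _ measurableSet_Ici]
    refine (min_le_right _ _).trans ?_
    have h5 : f b ⁻¹' Ici ((α₀ + 2 * β₀) / 3) = (f b ⁻¹' Iio ((α₀ + 2 * β₀) / 3))ᶜ := by
      ext x
      simp
    rw [h5, measureReal_compl ((hfm b) measurableSet_Iio), probReal_univ]
    have h6 : ν.real (Iio β₀) ≤ 1 / 2 := h4.trans (min_le_right _ _)
    linarith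
  · rw [hmap _ measurableSet_Iio]
    exact hle1.trans (h4.trans (min_le_left _ _))

/-- the truncation `clamp(t; δ, b) / (1 + C δ)` -/
noncomputable def cl (δ b C t : ℝ) : ℝ := max δ (min t b) / (1 + C * δ)

theorem measurable_cl (δ b C : ℝ) : Measurable (cl δ b C) := by
  unfold cl
  exact (measurable_const.max (measurable_id.min measurable_const)).div_const _

theorem cl_le {δ b C : ℝ} (hδ : 0 < δ) (hC : 0 ≤ C) (hb : δ ≤ b) (t : ℝ) : cl δ b C t ≤ b := by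
  unfold cl
  have h1 : 0 ≤ C * δ := mul_nonneg hC hδ.le
  rw [div_le_iff₀ (by linarith)]
  have h2 : max δ (min t b) ≤ b := max_le hb (min_le_right _ _)
  have h3 : 0 ≤ b := hδ.le.trans hb
  nlinarith [mul_nonneg h3 h1]

theorem le_cl {δ b C : ℝ} (hδ : 0 < δ) (hC : 0 ≤ C) (t : ℝ) : δ / (1 + C * δ) ≤ cl δ b C t := by
  unfold cl
  have h1 : 0 ≤ C * δ := mul_nonneg hC hδ.le
  exact div_le_div_of_nonneg_right (le_max_left _ _) (by linarith)

/-- `mass` for the truncations with `δ b → 0` -/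
theorem mass_cl {ν : Measure ℝ} [IsProbabilityMeasure ν] (hat : ∀ x, ν {x} = 0)
    (ha : ν (Iio 0) = 0) (δ : ℕ → ℝ) (C : ℝ) (hC : 0 ≤ C) (hδ : ∀ b, 0 < δ b)
    (hδ0 : Filter.Tendsto δ Filter.atTop (nhds 0)) {p : ℝ} (hp : 0 < p) :
    ∃ α β mm : ℝ, 0 < α ∧ α < β ∧ 0 < mm ∧ ∃ b₁ : ℕ, ∀ b, b₁ ≤ b →
      mm ≤ (ν.map (cl (δ b) b C)).real (Iic α) ∧ mm ≤ (ν.map (cl (δ b) b C)).real (Ici β) ∧
      (ν.map (cl (δ b) b C)).real (Iio β) ≤ p := by
  refine mass_of hat ha (fun b => cl (δ b) b C) (fun b => measurable_cl _ _ _) ?_ ?_ hp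
  · intro s t hs hst
    have h1 : ∀ᶠ b in Filter.atTop, δ b < t := hδ0.eventually_lt_const (lt_of_le_of_lt hs hst)
    obtain ⟨b₁, hb₁⟩ := Filter.eventually_atTop.1 h1
    refine ⟨b₁, fun b hb x hx => ?_⟩
    have h2 : 0 ≤ C * δ b := mul_nonneg hC (hδ b).le
    have h3 : max (δ b) (min x b) ≤ t := max_le (hb₁ b hb).le ((min_le_left _ _).trans
      (hx.trans hst.le))
    unfold cl
    rw [div_le_iff₀ (by linarith)]
    have h4 : 0 ≤ t := hs.trans hst.le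
    nlinarith [mul_nonneg h4 h2]
  · intro s t hs hst
    have h0 : Filter.Tendsto (fun b : ℕ => s * (1 + C * δ b)) Filter.atTop
        (nhds (s * (1 + C * 0))) := (tendsto_const_nhds.add (hδ0.const_mul C)).const_mul s
    rw [mul_zero, add_zero, mul_one] at h0
    have h1 : ∀ᶠ b : ℕ in Filter.atTop, s * (1 + C * δ b) < t := h0.eventually_lt_const hst
    have h1' : ∀ᶠ b : ℕ in Filter.atTop, t ≤ (b : ℝ) :=
      (tendsto_natCast_atTop_atTop).eventually_ge_atTop t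
    obtain ⟨b₁, hb₁⟩ := Filter.eventually_atTop.1 (h1.and h1')
    refine ⟨b₁, fun b hb x hx => ?_⟩
    obtain ⟨h5, h6⟩ := hb₁ b hb
    have h2 : 0 ≤ C * δ b := mul_nonneg hC (hδ b).le
    have h3 : t ≤ max (δ b) (min x b) := le_max_of_le_right (le_min hx h6)
    change s ≤ max (δ b) (min x b) / (1 + C * δ b)
    rw [le_div_iff₀ (by linarith)]
    linarith

end Pool.Agent.Helper90.PG
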