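import Pool.Agent.Helper90.PG.Reg
import Pool.Agent.Helper90.PG.Mass
import Pool.Agent.Helper51.GP.Defs

/-!
# Project GP: the truncated environments `cl (δ b) b C ∘ X` and the fields `env`, `reg`, `mass`
-/

set_option autoImplicit false

namespace Pool.Agent.Helper90.PG

open MeasureTheory ProbabilityTheory Pool.Agent.Helper79.GR Pool.Agent.Helper51.GP

variable {Ω : Type*} [MeasurableSpace Ω] {d : ℕ} {P : Measure Ω} {ν : Measure ℝ}
  {X : Edge d → Ω → ℝ}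

/-- the truncated weights -/
noncomputable def Xc (δ : ℕ → ℝ) (C : ℝ) (X : Edge d → Ω → ℝ) (b : ℕ) : Edge d → Ω → ℝ :=
  fun e ω => cl (δ b) b C (X e ω)

/-- the truncated laws -/
noncomputable def nc (δ : ℕ → ℝ) (C : ℝ) (ν : Measure ℝ) (b : ℕ) : Measure ℝ :=
  ν.map (cl (δ b) b C)

theorem env_cl (hP : IsProbabilityMeasure P) (hm : ∀ e, Measurable (X e)) (hi : iIndepFun X P)
    (hl : ∀ e, P.map (X e) = ν) {δ : ℕ → ℝ} {C : ℝ} (hC : 0 ≤ C) (hδ : ∀ b, 0 < δ b)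
    (hδ1 : ∀ b, δ b ≤ 1) (b : ℕ) (hb : 1 ≤ b) :
    Env P (Xc δ C X b) (nc δ C ν b) (δ b / (1 + C * δ b)) b where
  prob := hP
  meas e := (measurable_cl _ _ _).comp (hm e)
  indep := hi.comp _ fun _ => measurable_cl _ _ _
  law e := by
    rw [nc, ← hl e, Measure.map_map (measurable_cl _ _ _) (hm e)]
    rfl
  apos := div_pos (hδ b) (by nlinarith [mul_nonneg hC (hδ b).le])
  bd e ω := ⟨le_cl (hδ b) hC _, cl_le (hδ b) hC
    ((hδ1 b).trans (by exact_mod_cast hb)) _⟩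

theorem reg_cl (hP : IsProbabilityMeasure P) (hm : ∀ e, Measurable (X e)) (hi : iIndepFun X P)
    (hl : ∀ e, P.map (X e) = ν) (hat : ∀ x, ν {x} = 0) (h0 : ν (Set.Iio 0) = 0) (hd : 1 ≤ d)
    {δ : ℕ → ℝ} {C : ℝ} (hC : 0 ≤ C) (hδ : ∀ b, 0 < δ b) (hδ1 : ∀ b, δ b ≤ 1) :
    ∃ a : ℝ, ∀ b, 1 ≤ b → Reg P (Xc δ C X b) a := by
  have hd' : (1 : ℝ) ≤ d := by exact_mod_cast hd
  have hν : IsProbabilityMeasure ν := by
    have i : Fin d := ⟨0, hd⟩
    rw [← hl (ed 0 (i, true))]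
    exact Measure.isProbabilityMeasure_map (hm _).aemeasurable
  have hq : (0 : ℝ) < (1 / (16 * (d : ℝ))) ^ 2 := by positivity
  have hq1 : (1 / (16 * (d : ℝ))) ^ 2 < 1 := by
    have h1 : (1 / (16 * (d : ℝ))) < 1 := by
      rw [div_lt_one (by positivity)]
      linarith
    have h2 : (0 : ℝ) < 1 / (16 * (d : ℝ)) := by positivity
    nlinarith
  obtain ⟨β, hβ0, -, hβ⟩ := JT.exists_be hat h0 hq hq1
  set θ : ℝ := min β 1 / (1 + C) with hθ
  have hθ0 : 0 < θ := div_pos (lt_min hβ0 one_pos) (by linarith)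
  have hθ1 : θ ≤ 1 := by
    rw [hθ, div_le_one (by linarith)]
    exact (min_le_right _ _).trans (by linarith)
  refine ⟨θ / 3, fun b hb => ⟨by linarith, by linarith, fun n => ?_⟩⟩
  refine reg_of hP hm hi hl hd hθ0 hβ ?_ ?_ n
  · intro e ω
    exact (div_nonneg (hδ b).le (by nlinarith [mul_nonneg hC (hδ b).le])).trans
      (le_cl (hδ b) hC _)
  · intro e ω he
    change θ ≤ max (δ b) (min (X e ω) b) / (1 + C * δ b)
    have hb' : (1 : ℝ) ≤ b := by exact_mod_cast hb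
    have h1 : min β 1 ≤ max (δ b) (min (X e ω) b) :=
      le_max_of_le_right (min_le_min he hb')
    have h2 : (0 : ℝ) ≤ min β 1 := (lt_min hβ0 one_pos).le
    have h3 : C * δ b ≤ C := by nlinarith [hδ1 b]
    have h4 : 0 ≤ C * δ b := mul_nonneg hC (hδ b).le
    rw [hθ]
    exact div_le_div₀ (h2.trans h1) h1 (by linarith) (by linarith)

theorem mass_nc {ν : Measure ℝ} [IsProbabilityMeasure ν] (hat : ∀ x, ν {x} = 0)
    (h0 : ν (Set.Iio 0) = 0) {δ : ℕ → ℝ} {C : ℝ} (hC : 0 ≤ C) (hδ : ∀ b, 0 < δ b)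
    (hδ0 : Filter.Tendsto δ Filter.atTop (nhds 0)) (p : ℝ) (hp : 0 < p) :
    ∃ (α β c : ℝ) (b₁ : ℕ), α < β ∧ 0 < c ∧ ∀ b, b₁ ≤ b →
      c ≤ (nc δ C ν b).real (Set.Iic α) ∧ c ≤ (nc δ C ν b).real (Set.Ici β) ∧
      (nc δ C ν b).real (Set.Iio β) ≤ p := by
  obtain ⟨α, β, mm, -, h2, h3, b₁, h4⟩ := mass_cl hat h0 δ C hC hδ hδ0 hp
  exact ⟨α, β, mm, b₁, h2, h3, h4⟩

end Pool.Agent.Helper90.PG
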