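import Pool.Agent.Helper90.PG.Peierls

/-!
# Project PG: many cheap edges on one walk with different edges, and the Peierls bound
-/

set_option autoImplicit false

namespace Pool.Agent.Helper90.PG

open MeasureTheory ProbabilityTheory Pool.Agent.Helper79.GR

variable {Ω : Type*} [MeasurableSpace Ω] {d : ℕ} {P : Measure Ω} {ν : Measure ℝ}

/-- the probability that `k` of the different edges of `l` have a weight below `β` -/
theorem peier1 {ι : Type*} {X : ι → Ω → ℝ} (hP : IsProbabilityMeasure P)
    (hm : ∀ e, Measurable (X e)) (hi : iIndepFun X P) (hl : ∀ e, P.map (X e) = ν)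
    {β p : ℝ} (hp0 : 0 < p) (hp : ν.real (Set.Iio β) ≤ p) (l : List ι) (hnd : l.Nodup)
    (k : ℕ) :
    P {ω | k ≤ l.countP (fun e => decide (X e ω < β))} ≤
      ENNReal.ofReal (2 ^ l.length * p ^ k) := by
  classical
  have hone : ∀ e, P (X e ⁻¹' Set.Iio β) ≤ ENNReal.ofReal p := by
    intro e
    rw [← Measure.map_apply (hm e) measurableSet_Iio, hl e]
    have : IsProbabilityMeasure ν := by
      rw [← hl e]
      exact Measure.isProbabilityMeasure_map (hm e).aemeasurable
    rw [← ENNReal.ofReal_toReal (measure_ne_top ν (Set.Iio β))]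
    exact ENNReal.ofReal_le_ofReal hp
  have hsub : {ω | k ≤ l.countP (fun e => decide (X e ω < β))} ⊆
      ⋃ S ∈ l.toFinset.powersetCard k, ⋂ e ∈ S, X e ⁻¹' Set.Iio β := by
    intro ω hω
    have hc : l.countP (fun e => decide (X e ω < β)) =
        (l.toFinset.filter (fun e => X e ω < β)).card := by
      rw [List.countP_eq_length_filter, ← List.toFinset_card_of_nodup (hnd.filter _)]
      congr 1
      ext e
      simp
    have hω' : k ≤ (l.toFinset.filter (fun e => X e ω < β)).card := hc ▸ hω
    obtain ⟨S, hS, hSk⟩ := Finset.exists_subset_card_eq hω'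
    simp only [Set.mem_iUnion, Set.mem_iInter]
    refine ⟨S, Finset.mem_powersetCard.2 ⟨hS.trans (Finset.filter_subset _ _), hSk⟩, ?_⟩
    intro e he
    exact (Finset.mem_filter.1 (hS he)).2
  calc P {ω | k ≤ l.countP (fun e => decide (X e ω < β))}
      ≤ P (⋃ S ∈ l.toFinset.powersetCard k, ⋂ e ∈ S, X e ⁻¹' Set.Iio β) := measure_mono hsub
    _ ≤ ∑ S ∈ l.toFinset.powersetCard k, P (⋂ e ∈ S, X e ⁻¹' Set.Iio β) :=
        measure_biUnion_finset_le _ _
    _ ≤ ∑ _S ∈ l.toFinset.powersetCard k, ENNReal.ofReal (p ^ k) := by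
        apply Finset.sum_le_sum
        intro S hS
        rw [hi.measure_inter_preimage_eq_mul S (sets := fun _ => Set.Iio β)
          (fun _ _ => measurableSet_Iio), ENNReal.ofReal_pow hp0.le,
          ← (Finset.mem_powersetCard.1 hS).2, ← Finset.prod_const]
        exact Finset.prod_le_prod' fun e _ => hone e
    _ ≤ ENNReal.ofReal (2 ^ l.length * p ^ k) := by
        rw [Finset.sum_const, nsmul_eq_mul, Finset.card_powersetCard,
          List.toFinset_card_of_nodup hnd, ← ENNReal.ofReal_natCast,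
          ← ENNReal.ofReal_mul (by positivity)]
        apply ENNReal.ofReal_le_ofReal
        apply mul_le_mul_of_nonneg_right _ (by positivity)
        exact_mod_cast Nat.choose_le_two_pow _ _

/-- walks with many cheap edges are unlikely -/
theorem peierls {X : Edge d → Ω → ℝ} {a b : ℝ} (h : Env P X ν a b) {κ : ℝ} (hκ : 0 < κ) :
    ∃ p : ℝ, 0 < p ∧ p ≤ 1 / 2 ∧ ∃ n₀ : ℕ, ∀ β : ℝ,
      ν.real (Set.Iio β) ≤ p →
      P {ω | ∃ w : List (St d), n₀ ≤ w.length ∧ (eds 0 w).Nodup ∧
        κ * w.length < ((eds 0 w).countP (fun e => decide (X e ω < β)) : ℝ)} ≤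
        ENNReal.ofReal (1 / 8) :=
  peierls_of (fun hp0 hp l hl k => peier1 h.prob h.meas h.indep h.law hp0 hp l hl k) hκ

end Pool.Agent.Helper90.PG
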