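import Pool.Agent.Helper79.GR.Defs

/-!
# Project PG: walks with many cheap edges (counting of lattice paths)
-/

set_option autoImplicit false

namespace Pool.Agent.Helper90.PG

open MeasureTheory ProbabilityTheory Pool.Agent.Helper79.GR

variable {Ω : Type*} [MeasurableSpace Ω] {d : ℕ} {P : Measure Ω} {X : Edge d → Ω → ℝ}
  {ν : Measure ℝ}

theorem eds_len {d : ℕ} (x : V d) (w : List (St d)) : (eds x w).length = w.length := by
  induction w generalizing x with
  | nil => rfl
  | cons s w ih => simp [eds, ih]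

theorem peierls_of
    (h1 : ∀ {β p : ℝ}, 0 < p → ν.real (Set.Iio β) ≤ p → ∀ l : List (Edge d), l.Nodup →
      ∀ k : ℕ, P {ω | k ≤ l.countP (fun e => decide (X e ω < β))} ≤
        ENNReal.ofReal (2 ^ l.length * p ^ k))
    {κ : ℝ} (hκ : 0 < κ) : ∃ p : ℝ, 0 < p ∧ p ≤ 1 / 2 ∧ ∃ n₀ : ℕ, ∀ β : ℝ,
      ν.real (Set.Iio β) ≤ p →
      P {ω | ∃ w : List (St d), n₀ ≤ w.length ∧ (eds 0 w).Nodup ∧
        κ * w.length < ((eds 0 w).countP (fun e => decide (X e ω < β)) : ℝ)} ≤
        ENNReal.ofReal (1 / 8) := by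
  classical
  set q : ℝ := 1 / (64 * (d + 1)) with hq
  have hq0 : 0 < q := by positivity
  set p : ℝ := min (1 / 2) (q ^ (1 / κ)) with hp
  have hqk : 0 < q ^ (1 / κ) := Real.rpow_pos_of_pos hq0 _
  have hp0 : 0 < p := lt_min (by norm_num) hqk
  have hp1 : p ≤ 1 / 2 := min_le_left _ _
  refine ⟨p, hp0, hp1, 1, ?_⟩
  intro β hβ
  -- the power
  have hpow : ∀ m k : ℕ, κ * m ≤ k → p ^ k ≤ q ^ m := by
    intro m k hmk
    calc p ^ k = p ^ ((k : ℕ) : ℝ) := (Real.rpow_natCast p k).symm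
      _ ≤ p ^ (κ * m) := Real.rpow_le_rpow_of_exponent_ge hp0 (by linarith) hmk
      _ ≤ (q ^ (1 / κ)) ^ (κ * m) :=
          Real.rpow_le_rpow hp0.le (min_le_right _ _) (by positivity)
      _ = q ^ ((1 / κ) * (κ * m)) := (Real.rpow_mul hq0.le _ _).symm
      _ = q ^ ((m : ℕ) : ℝ) := by
          congr 1
          field_simp
      _ = q ^ m := Real.rpow_natCast q m
  set S : (m : ℕ) → (Fin (m + 1) → St d) → Set Ω := fun m f =>
    {ω | (eds 0 (List.ofFn f)).Nodup ∧
      κ * (m + 1 : ℕ) < ((eds 0 (List.ofFn f)).countP (fun e => decide (X e ω < β)) : ℝ)} with hS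
  have hsub : {ω | ∃ w : List (St d), 1 ≤ w.length ∧ (eds 0 w).Nodup ∧
        κ * w.length < ((eds 0 w).countP (fun e => decide (X e ω < β)) : ℝ)} ⊆
      ⋃ m, ⋃ f, S m f := by
    rintro ω ⟨w, hw1, hw2, hw3⟩
    obtain ⟨m, hm⟩ : ∃ m, w.length = m + 1 := ⟨w.length - 1, by omega⟩
    simp only [Set.mem_iUnion]
    refine ⟨m, fun i => w.get (i.cast hm.symm), ?_⟩
    have hofn : List.ofFn (fun i : Fin (m + 1) => w.get (i.cast hm.symm)) = w := by
      apply List.ext_getElem
      · rw [List.length_ofFn, hm]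
      · intro n h1 h2
        rw [List.getElem_ofFn]
        rfl
    change (eds 0 (List.ofFn fun i : Fin (m + 1) => w.get (i.cast hm.symm))).Nodup ∧ _
    rw [hofn]
    refine ⟨hw2, ?_⟩
    rw [← hm]
    exact hw3
  have hone : ∀ (m : ℕ) (f : Fin (m + 1) → St d),
      P (S m f) ≤ ENNReal.ofReal ((2 * q) ^ (m + 1)) := by
    intro m f
    by_cases hnd : (eds 0 (List.ofFn f)).Nodup
    · have hlen : (eds 0 (List.ofFn f)).length = m + 1 := by rw [eds_len, List.length_ofFn]
      calc P (S m f) ≤ P {ω | ⌈κ * (m + 1 : ℕ)⌉₊ ≤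
              (eds 0 (List.ofFn f)).countP (fun e => decide (X e ω < β))} := by
            apply measure_mono
            rintro ω ⟨-, hω⟩
            exact Nat.ceil_le.2 hω.le
        _ ≤ ENNReal.ofReal (2 ^ (eds 0 (List.ofFn f)).length * p ^ ⌈κ * (m + 1 : ℕ)⌉₊) :=
            h1 hp0 hβ _ hnd _
        _ ≤ ENNReal.ofReal ((2 * q) ^ (m + 1)) := by
            apply ENNReal.ofReal_le_ofReal
            rw [hlen, mul_pow]
            exact mul_le_mul_of_nonneg_left (hpow _ _ (Nat.le_ceil _)) (by positivity)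
    · have : S m f = ∅ := Set.eq_empty_of_forall_notMem fun ω hω => hnd hω.1
      rw [this]
      simp
  have hcard : Fintype.card (St d) = d * 2 := by simp [St]
  have hd : (0 : ℝ) ≤ d := Nat.cast_nonneg d
  have hqd : (d * 2 : ℝ) * (2 * q) ≤ 1 / 16 := by
    rw [hq]
    have h2 : (0 : ℝ) < 64 * (d + 1) := by positivity
    rw [show (d * 2 : ℝ) * (2 * (1 / (64 * (d + 1)))) = (4 * d) / (64 * (d + 1)) by ring,
      div_le_div_iff₀ h2 (by norm_num)]
    nlinarith
  have hgeo : HasSum (fun m : ℕ => (1 / 16 : ℝ) ^ (m + 1)) (1 / 15) := by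
    have h3 := (hasSum_geometric_of_lt_one (r := (1 / 16 : ℝ)) (by norm_num)
      (by norm_num)).mul_left (1 / 16)
    have h4 : (1 / 16 : ℝ) * (1 - 1 / 16)⁻¹ = 1 / 15 := by norm_num
    rw [h4] at h3
    refine h3.congr_fun ?_
    intro m
    ring
  calc P {ω | ∃ w : List (St d), 1 ≤ w.length ∧ (eds 0 w).Nodup ∧
        κ * w.length < ((eds 0 w).countP (fun e => decide (X e ω < β)) : ℝ)}
      ≤ P (⋃ m, ⋃ f, S m f) := measure_mono hsub
    _ ≤ ∑' m, P (⋃ f, S m f) := measure_iUnion_le _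
    _ ≤ ∑' m : ℕ, ENNReal.ofReal ((1 / 16) ^ (m + 1)) := by
        apply ENNReal.tsum_le_tsum
        intro m
        calc P (⋃ f, S m f) ≤ ∑ f, P (S m f) := measure_iUnion_fintype_le _ _
          _ ≤ ∑ _f : Fin (m + 1) → St d, ENNReal.ofReal ((2 * q) ^ (m + 1)) :=
              Finset.sum_le_sum fun f _ => hone m f
          _ = ENNReal.ofReal (((d * 2 : ℝ) * (2 * q)) ^ (m + 1)) := by
              have h5 : (((d * 2) ^ (m + 1) : ℕ) : ENNReal) =
                  ENNReal.ofReal ((d * 2 : ℝ) ^ (m + 1)) := by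
                rw [← ENNReal.ofReal_natCast]
                congr 1
                push_cast
                ring
              rw [Finset.sum_const, Finset.card_univ, Fintype.card_fun, hcard, Fintype.card_fin,
                nsmul_eq_mul, h5, ← ENNReal.ofReal_mul (by positivity)]
              congr 1
              rw [← mul_pow]
          _ ≤ ENNReal.ofReal ((1 / 16) ^ (m + 1)) := by
              apply ENNReal.ofReal_le_ofReal
              exact pow_le_pow_left₀ (by positivity) hqd _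
    _ = ENNReal.ofReal (1 / 15) := by
        rw [← ENNReal.ofReal_tsum_of_nonneg (fun m => by positivity) hgeo.summable, hgeo.tsum_eq]
    _ ≤ ENNReal.ofReal (1 / 8) := ENNReal.ofReal_le_ofReal (by norm_num)

end Pool.Agent.Helper90.PG
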