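import Pool.Agent.Helper90.JT.High

/-!
# Project PG, general laws: long walks are expensive (Peierls), uniformly in the truncation
-/

set_option autoImplicit false

namespace Pool.Agent.Helper90.PG

open MeasureTheory ProbabilityTheory Pool.Agent.Helper79.GR

variable {Ω : Type*} [MeasurableSpace Ω] {d : ℕ} {P : Measure Ω} {ν : Measure ℝ}

/-- the probability that some walk of length `n` from `x` has at least half cheap edges -/
theorem half_one {X : Edge d → Ω → ℝ} (hP : IsProbabilityMeasure P)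
    (hm : ∀ e, Measurable (X e)) (hi : iIndepFun X P) (hl : ∀ e, P.map (X e) = ν)
    (hd : 1 ≤ d) {β q : ℝ} (hq0 : 0 < q) (hq1 : q ≤ 1) (hb : ν.real (Set.Iio β) ≤ q ^ 2)
    (x : V d) (n : ℕ) :
    P {ω | ∃ u : List (St d), u.length = n ∧ (eds x u).Nodup ∧
      2 * ((eds x u).countP (fun e => decide (β ≤ X e ω))) ≤ n} ≤
      ENNReal.ofReal ((4 * d * q) ^ n) := by
  have hd' : (1 : ℝ) ≤ d := by exact_mod_cast hd
  set S : (Fin n → St d) → Set Ω := fun f =>
    {ω | (eds x (List.ofFn f)).Nodup ∧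
      2 * ((eds x (List.ofFn f)).countP (fun e => decide (β ≤ X e ω))) ≤ n} with hS
  have hsub : {ω | ∃ u : List (St d), u.length = n ∧ (eds x u).Nodup ∧
      2 * ((eds x u).countP (fun e => decide (β ≤ X e ω))) ≤ n} ⊆ ⋃ f, S f := by
    rintro ω ⟨u, hu1, hu2, hu3⟩
    simp only [Set.mem_iUnion]
    refine ⟨fun i => u.get (i.cast hu1.symm), ?_⟩
    have hofn : List.ofFn (fun i : Fin n => u.get (i.cast hu1.symm)) = u := by
      apply List.ext_getElem
      · rw [List.length_ofFn, hu1]
      · intro m h1 h2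
        rw [List.getElem_ofFn]
        rfl
    change (eds x (List.ofFn fun i : Fin n => u.get (i.cast hu1.symm))).Nodup ∧ _
    rw [hofn]
    exact ⟨hu2, hu3⟩
  have hone : ∀ f : Fin n → St d, P (S f) ≤ ENNReal.ofReal ((2 * q) ^ n) := by
    intro f
    by_cases hnd : (eds x (List.ofFn f)).Nodup
    · have hlen : (eds x (List.ofFn f)).length = n := by
        rw [Pool.Agent.Helper79.GR.length_eds, List.length_ofFn]
      calc P (S f) ≤ P {ω | (n + 1) / 2 ≤
              (eds x (List.ofFn f)).countP (fun e => decide (X e ω < β))} := by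
            apply measure_mono
            rintro ω ⟨-, hω⟩
            have h3 := JT.countP_add_countP (fun e => X e ω) β (eds x (List.ofFn f))
            rw [hlen] at h3
            change (n + 1) / 2 ≤ _
            omega
        _ ≤ ENNReal.ofReal (2 ^ (eds x (List.ofFn f)).length * (q ^ 2) ^ ((n + 1) / 2)) :=
            peier1 hP hm hi hl (by positivity) hb _ hnd _
        _ ≤ ENNReal.ofReal ((2 * q) ^ n) := by
            apply ENNReal.ofReal_le_ofReal
            rw [hlen, ← pow_mul, mul_pow]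
            exact mul_le_mul_of_nonneg_left
              (pow_le_pow_of_le_one hq0.le hq1 (by omega)) (by positivity)
    · have : S f = ∅ := Set.eq_empty_of_forall_notMem fun ω hω => hnd hω.1
      rw [this]
      simp
  calc P {ω | ∃ u : List (St d), u.length = n ∧ (eds x u).Nodup ∧
      2 * ((eds x u).countP (fun e => decide (β ≤ X e ω))) ≤ n}
      ≤ P (⋃ f, S f) := measure_mono hsub
    _ ≤ ∑ f, P (S f) := measure_iUnion_fintype_le _ _
    _ ≤ ∑ _f : Fin n → St d, ENNReal.ofReal ((2 * q) ^ n) :=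
        Finset.sum_le_sum fun f _ => hone f
    _ = ENNReal.ofReal ((4 * d * q) ^ n) := by
        have h5 : (((d * 2) ^ n : ℕ) : ENNReal) = ENNReal.ofReal ((d * 2 : ℝ) ^ n) := by
          rw [← ENNReal.ofReal_natCast]
          congr 1
          push_cast
          ring
        have hcard : Fintype.card (St d) = d * 2 := by simp [St]
        rw [Finset.sum_const, Finset.card_univ, Fintype.card_fun, hcard, Fintype.card_fin,
          nsmul_eq_mul, h5, ← ENNReal.ofReal_mul (by positivity)]
        congr 1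
        rw [← mul_pow]
        congr 1
        ring

/-- Long walks are expensive, with a bound which depends on `θ` and the law only through the mass
below `β`. -/
theorem reg_of {X Y : Edge d → Ω → ℝ} (hP : IsProbabilityMeasure P)
    (hm : ∀ e, Measurable (X e)) (hi : iIndepFun X P) (hl : ∀ e, P.map (X e) = ν)
    (hd : 1 ≤ d) {β θ : ℝ} (hθ : 0 < θ)
    (hb : ν.real (Set.Iio β) ≤ (1 / (16 * d)) ^ 2)
    (hY0 : ∀ e ω, 0 ≤ Y e ω) (hY : ∀ e ω, β ≤ X e ω → θ ≤ Y e ω) (n : ℕ) :
    P {ω | ∃ u : List (St d), n ≤ u.length ∧ (eds 0 u).Nodup ∧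
      cost (cf Y ω) 0 u ≤ θ / 3 * u.length} ≤ ENNReal.ofReal (Real.exp (-n)) := by
  have hd' : (1 : ℝ) ≤ d := by exact_mod_cast hd
  rcases Nat.eq_zero_or_pos n with rfl | hn
  · rw [Nat.cast_zero, neg_zero, Real.exp_zero, ENNReal.ofReal_one]
    exact prob_le_one
  have hq1 : (1 / (16 * (d : ℝ))) ≤ 1 := by
    rw [div_le_one (by positivity)]
    linarith
  -- the cost
  have hcost : ∀ (ω : Ω) (x : V d) (u : List (St d)),
      θ * ((eds x u).countP (fun e => decide (β ≤ X e ω)) : ℝ) ≤ cost (cf Y ω) x u := by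
    intro ω x u
    induction u generalizing x with
    | nil => simp [eds, cost]
    | cons s u ih =>
      have h1 := ih (x + sv s)
      change θ * (((ed x s :: eds (x + sv s) u).countP fun e => decide (β ≤ X e ω) : ℕ) : ℝ) ≤
        cf Y ω (ed x s) + cost (cf Y ω) (x + sv s) u
      rw [List.countP_cons]
      by_cases h : β ≤ X (ed x s) ω
      · have h2 := hY (ed x s) ω h
        simp only [h, decide_true, if_true]
        push_cast
        change _ ≤ Y (ed x s) ω + _
        linarith
      · have h2 := hY0 (ed x s) ω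
        simp only [h, decide_false]
        simp only [Bool.false_eq_true, if_false, add_zero]
        change _ ≤ Y (ed x s) ω + _
        linarith
  have hsub : {ω | ∃ u : List (St d), n ≤ u.length ∧ (eds 0 u).Nodup ∧
      cost (cf Y ω) 0 u ≤ θ / 3 * u.length} ⊆
      ⋃ m : ℕ, {ω | ∃ u : List (St d), u.length = n + m ∧ (eds 0 u).Nodup ∧
        2 * ((eds 0 u).countP (fun e => decide (β ≤ X e ω))) ≤ n + m} := by
    rintro ω ⟨u, hu1, hu2, hu3⟩
    rw [Set.mem_iUnion]
    refine ⟨u.length - n, u, by omega, hu2, ?_⟩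
    by_contra hc
    have hc' : u.length + 1 ≤ 2 * ((eds 0 u).countP (fun e => decide (β ≤ X e ω))) := by omega
    have h1 : ((u.length : ℝ) + 1) ≤
        2 * ((eds 0 u).countP (fun e => decide (β ≤ X e ω)) : ℝ) := by exact_mod_cast hc'
    have h2 := hcost ω 0 u
    have h3 : (0 : ℝ) ≤ u.length := Nat.cast_nonneg _
    nlinarith [mul_nonneg hθ.le h3]
  have hr : ∀ m : ℕ, (4 * (d : ℝ) * (1 / (16 * d))) ^ m = (1 / 4) ^ m := by
    intro m
    congr 1
    field_simp
    norm_num
  have hgeo : HasSum (fun m : ℕ => (1 / 4 : ℝ) ^ (n + m)) ((1 / 4) ^ n * (1 - 1 / 4)⁻¹) := by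
    have h3 := (hasSum_geometric_of_lt_one (r := (1 / 4 : ℝ)) (by norm_num)
      (by norm_num)).mul_left ((1 / 4) ^ n)
    refine h3.congr_fun ?_
    intro m
    rw [pow_add]
  calc P {ω | ∃ u : List (St d), n ≤ u.length ∧ (eds 0 u).Nodup ∧
      cost (cf Y ω) 0 u ≤ θ / 3 * u.length}
      ≤ P (⋃ m : ℕ, {ω | ∃ u : List (St d), u.length = n + m ∧ (eds 0 u).Nodup ∧
        2 * ((eds 0 u).countP (fun e => decide (β ≤ X e ω))) ≤ n + m}) := measure_mono hsub
    _ ≤ ∑' m : ℕ, P {ω | ∃ u : List (St d), u.length = n + m ∧ (eds 0 u).Nodup ∧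
        2 * ((eds 0 u).countP (fun e => decide (β ≤ X e ω))) ≤ n + m} := measure_iUnion_le _
    _ ≤ ∑' m : ℕ, ENNReal.ofReal ((1 / 4) ^ (n + m)) := by
        apply ENNReal.tsum_le_tsum
        intro m
        have h := half_one hP hm hi hl hd (q := 1 / (16 * (d : ℝ))) (by positivity) hq1 hb
          (0 : V d) (n + m)
        rwa [hr] at h
    _ = ENNReal.ofReal ((1 / 4) ^ n * (1 - 1 / 4)⁻¹) := by
        rw [← ENNReal.ofReal_tsum_of_nonneg (fun m => by positivity) hgeo.summable, hgeo.tsum_eq]
    _ ≤ ENNReal.ofReal (Real.exp (-n)) := by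
        apply ENNReal.ofReal_le_ofReal
        -- (4/3) 4^(-n) ≤ e^(-n)
        have h1 : Real.exp (-(n : ℝ)) = (Real.exp (-1)) ^ n := by
          rw [← Real.exp_nat_mul]
          congr 1
          ring
        have h2 : (1 / 3 : ℝ) ≤ Real.exp (-1) := by
          rw [Real.exp_neg, ← one_div]
          exact one_div_le_one_div_of_le (Real.exp_pos _) Real.exp_one_lt_three.le
        obtain ⟨m, rfl⟩ : ∃ m, n = m + 1 := ⟨n - 1, by omega⟩
        have h3 : (1 / 4 : ℝ) ^ m ≤ (Real.exp (-1)) ^ m :=
          pow_le_pow_left₀ (by norm_num) (by linarith) m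
        rw [h1]
        calc (1 / 4 : ℝ) ^ (m + 1) * (1 - 1 / 4)⁻¹ = (1 / 4) ^ m * (1 / 3) := by
              rw [pow_succ]
              norm_num
              ring
          _ ≤ (Real.exp (-1)) ^ m * Real.exp (-1) :=
              mul_le_mul h3 h2 (by norm_num) (by positivity)
          _ = (Real.exp (-1)) ^ (m + 1) := (pow_succ _ _).symm

end Pool.Agent.Helper90.PG
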